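import Pool.Agent.TH705.SV.Pol

/-!
# Shortest Path Most Vital Edges is W[1]-hard for the number of deleted edges

An instance `(W, (s, t), (k, ℓ))` consists of a graph with positive integer edge lengths, given by
the matrix `W` (the entry above the diagonal at `{i, j}` is the length of the edge `{i, j}`, and
`0` if there is none), two vertices and two numbers; the question is whether at most `k` edges can
be deleted such that afterwards every path from `s` to `t` has length at least `ℓ`.

Reduction from Clique: there are chains `X a`, `Y b` with `N` edges and `Z a b` with `N * N` edges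
(`a, b < k`), in each of which exactly one edge has to be deleted, with the numbers `x a`, `y b`
and `z a b`; the lengths of the two kinds of shortest paths through `X a`, `Z a b` and `Y b` enforce
`z a b = N * x a + y b`; and in `Z a b` only the edges which belong to edges of the graph (for
`a ≠ b`), or to equal vertices (for `a = b`), can be deleted. The network is directed and acyclic;
large lengths proportional to the differences of the positions in a topological order make the
directions superfluous.
-/

namespace Pool.Agent.Results.MP_40aef2_lc.DeletionBudgetW1Hard

open Pool.Agent.NPC Pool.Agent.H633R2 Pool.Agent.TH705.SV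

/-- **SP-MVE is W[1]-hard for the parameter `k`, also if all lengths are `1`.** (1) Clique with
parameter `k` is reduced in polynomial time (`FptTime` with constant parameter) to SP-MVE with
budget at most `k ^ 2 + 2 k` and unit lengths. (2) SP-MVE is `W[1]`-hard for the deletion budget. (3) If it is fixed-parameter tractable,
then so is every problem in `W[1]`. -/
theorem result :
    (∃ f : List (List Bool) × ℕ → Inst, FptTime (fun _ => 0) f ∧ ∀ x, (HasClique x ↔ SPMVE (f x)) ∧
      (f x).2.2.1 ≤ x.2 * x.2 + 2 * x.2 ∧ ∀ r ∈ (f x).1, ∀ w ∈ r, w ≤ 1) ∧
    W1Hard (fun I : Inst => I.2.2.1) SPMVE ∧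
    (IsFpt (fun I : Inst => I.2.2.1) SPMVE →
      ∀ (α : Type) [TEnc α] (κ : α → ℕ) (P : α → Prop), InW1 κ P → IsFpt κ P) :=
  ⟨⟨red, FptTime.of_poly p_red, fun x => ⟨red_iff x, red_param x, red_unit x⟩⟩, w1Hard,
    fun h _ _ _ _ hP => w1Hard.collapse h hP⟩

end Pool.Agent.Results.MP_40aef2_lc.DeletionBudgetW1Hard
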